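import Pool.Agent.Helper73.Dil.All
import Pool.Agent.Helper26.Dil.AFF

open Pool.Agent.Helper73.Dil

namespace Pool.Agent.Results.MP_71dd03_gt.NoLattice

universe u

/-- The Veech group of a dilation surface with nontrivial holonomy is not a lattice in
`PSL(2,ℝ)`. -/
theorem result (X : Type u) [TopologicalSpace X] [CompactSpace X] [T2Space X] [ConnectedSpace X]
    (D : DilationSurface X) (h : D.HolonomyNontrivial) : ¬ IsLatticeIn D.PVeech :=
  all_final (Pool.Agent.Helper26.Dil.sb_AFF sb_MEAS all_LOCL Pool.Agent.Helper34.Dil.sb_GLUE)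
    X D h

end Pool.Agent.Results.MP_71dd03_gt.NoLattice
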